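import Pool.Agent.helper60.AVK.SpecA

set_option autoImplicit false

namespace Pool.Agent.helper60.AVK

open MeasureTheory Set

theorem VOLR_one (c : ℝ) (hc : 0 < c) :
    ∫⁻ t in Ioi c, ENNReal.ofReal (1 / t ^ 3) = ENNReal.ofReal (1 / (2 * c ^ 2)) := by
  have h1 : ∀ t ∈ Ioi c, (1 : ℝ) / t ^ 3 = t ^ (-3 : ℝ) := by
    intro t ht
    have ht0 : 0 < t := hc.trans ht
    rw [Real.rpow_neg ht0.le, one_div]
    congr 1
    exact_mod_cast (Real.rpow_natCast t 3).symm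
  have h2 : IntegrableOn (fun t : ℝ => t ^ (-3 : ℝ)) (Ioi c) := integrableOn_Ioi_rpow_of_lt (by norm_num) hc
  have h3 : ∫ t : ℝ in Ioi c, t ^ (-3 : ℝ) = 1 / (2 * c ^ 2) := by
    rw [integral_Ioi_rpow_of_lt (by norm_num) hc]
    have : c ^ ((-3 : ℝ) + 1) = (c ^ 2)⁻¹ := by
      rw [show (-3 : ℝ) + 1 = -(2 : ℝ) by norm_num, Real.rpow_neg hc.le]
      congr 1
      exact_mod_cast Real.rpow_natCast c 2
    rw [this]
    field_simp
    norm_num
  rw [← h3, ofReal_integral_eq_lintegral_ofReal h2]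
  · apply setLIntegral_congr_fun measurableSet_Ioi
    intro t ht
    simp only [h1 t ht]
  · refine (ae_restrict_iff' measurableSet_Ioi).2 (Filter.Eventually.of_forall fun t ht => ?_)
    exact Real.rpow_nonneg (hc.trans ht).le _

theorem VOLR_vol (T : Set (ℂ × ℝ)) (hT : MeasurableSet T) (hpos : ∀ q ∈ T, 0 < q.2) :
    volume {p : H3 | (p.z, p.t) ∈ T} = ∫⁻ q in T, ENNReal.ofReal (1 / q.2 ^ 3) := by
  have hS : MeasurableSet {q : ℂ × ℝ | 0 < q.2} := measurableSet_lt measurable_const measurable_snd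
  have hs : MeasurableSet {p : H3 | (p.z, p.t) ∈ T} := by
    have : Measurable (Subtype.val : {q : ℂ × ℝ // 0 < q.2} → ℂ × ℝ) := measurable_subtype_coe
    exact this hT
  have h1 : (volume : Measure H3) {p : H3 | (p.z, p.t) ∈ T} =
      ∫⁻ p in {p : H3 | (p.z, p.t) ∈ T}, (fun p : H3 => ENNReal.ofReal (1 / (H3.t p) ^ 3)) p
        ∂((volume : Measure (ℂ × ℝ)).comap (Subtype.val : {p : ℂ × ℝ // 0 < p.2} → ℂ × ℝ)) := by
    exact withDensity_apply _ hs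
  rw [h1]
  have h2 := setLIntegral_subtype (μ := (volume : Measure (ℂ × ℝ))) hS
    ((Subtype.val : {q : ℂ × ℝ // 0 < q.2} → ℂ × ℝ) ⁻¹' T) (fun q => ENNReal.ofReal (1 / q.2 ^ 3))
  have h3 : (Subtype.val : {q : ℂ × ℝ // 0 < q.2} → ℂ × ℝ) '' ((Subtype.val : {q : ℂ × ℝ // 0 < q.2} → ℂ × ℝ) ⁻¹' T) = T := by
    rw [image_preimage_eq_iff]
    intro q hq
    exact ⟨⟨q, hpos q hq⟩, rfl⟩
  refine Eq.trans ?_ (h2.trans ?_)
  · rfl
  · have h4 : ∀ S' : Set (ℂ × ℝ), S' = T → ∫⁻ q in S', ENNReal.ofReal (1 / q.2 ^ 3) =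
        ∫⁻ q in T, ENNReal.ofReal (1 / q.2 ^ 3) := by
      rintro _ rfl
      rfl
    exact h4 _ h3

theorem VOLR_gen (C : Set ℂ) (hC : MeasurableSet C) (h : ℂ → ℝ) (I : ℝ → Set ℝ)
    (hT : MeasurableSet {q : ℂ × ℝ | q.1 ∈ C ∧ q.2 ∈ I (h q.1)}) (hI : ∀ c t, 0 < c → t ∈ I c → 0 < t)
    (hae : ∀ c, I c =ᵐ[volume] Ioi c) (hm : ∀ c, MeasurableSet (I c))
    (hh : ∀ z, 0 < h z) :
    volume {p : H3 | p.z ∈ C ∧ p.t ∈ I (h p.z)} = ∫⁻ z in C, ENNReal.ofReal (1 / (2 * h z ^ 2)) := by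
  have h1 := VOLR_vol {q : ℂ × ℝ | q.1 ∈ C ∧ q.2 ∈ I (h q.1)} hT (fun q hq => hI _ _ (hh _) hq.2)
  rw [show {p : H3 | p.z ∈ C ∧ p.t ∈ I (h p.z)} = {p : H3 | (p.z, p.t) ∈ {q : ℂ × ℝ | q.1 ∈ C ∧ q.2 ∈ I (h q.1)}} from rfl, h1]
  have hf : Measurable (fun q : ℂ × ℝ => ENNReal.ofReal (1 / q.2 ^ 3)) := by fun_prop
  rw [← lintegral_indicator hT, Measure.volume_eq_prod, lintegral_prod _ (hf.indicator hT).aemeasurable,
    ← lintegral_indicator hC]
  apply lintegral_congr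
  intro z
  by_cases hz : z ∈ C
  · rw [indicator_of_mem hz, ← VOLR_one (h z) (hh z), ← setLIntegral_congr (hae (h z)), ← lintegral_indicator (hm _)]
    apply lintegral_congr
    intro t
    by_cases ht : t ∈ I (h z)
    · rw [indicator_of_mem ht, indicator_of_mem]
      exact ⟨hz, ht⟩
    · rw [indicator_of_notMem ht, indicator_of_notMem]
      exact fun hq => ht hq.2
  · rw [indicator_of_notMem hz]
    have : ∀ t : ℝ, ({q : ℂ × ℝ | q.1 ∈ C ∧ q.2 ∈ I (h q.1)}.indicator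
        (fun q : ℂ × ℝ => ENNReal.ofReal (1 / q.2 ^ 3)) (z, t)) = 0 := fun t =>
      indicator_of_notMem (fun hq => hz hq.1) _
    rw [lintegral_congr this, lintegral_zero]

theorem VOLR : VOLR_stmt := by
  intro C h hC hm hh
  have hz : MeasurableSet {q : ℂ × ℝ | q.1 ∈ C} := measurable_fst hC
  constructor
  · exact VOLR_gen C hC h Ioi (hz.inter (measurableSet_lt (hm.comp measurable_fst) measurable_snd))
      (fun c t hc ht => hc.trans ht) (fun c => Filter.EventuallyEq.rfl) (fun c => measurableSet_Ioi) hh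
  · exact VOLR_gen C hC h Ici (hz.inter (measurableSet_le (hm.comp measurable_fst) measurable_snd))
      (fun c t hc ht => lt_of_lt_of_le hc ht) (fun c => Ioi_ae_eq_Ici.symm) (fun c => measurableSet_Ici) hh

end Pool.Agent.helper60.AVK
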